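import Pool.Agent.W928.MW.Stm

/-! Part MW-COV: from measure to covering number. -/

set_option autoImplicit false

open Finset MeasureTheory

namespace Pool.Agent.W686.MWCOV

theorem t : Pool.Agent.W928.MW.S_COV := by
  classical
  intro E F δ V a b hδ hV hE hF hvol
  obtain ⟨J, hJ⟩ : ∃ J : Finset ℤ, J = (Finset.Icc ⌊a / δ⌋ ⌊b / δ⌋).filter
      (fun j : ℤ => ∃ t ∈ E, t ∈ Set.Ico ((j : ℝ) * δ) (((j : ℝ) + 1) * δ)) := ⟨_, rfl⟩
  have hsub : (⋃ j ∈ J, Set.Ico ((j : ℝ) * δ) (((j : ℝ) + 1) * δ)) ⊆ F := by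
    intro y hy
    rw [Set.mem_iUnion₂] at hy
    obtain ⟨j, hj, hy1, hy2⟩ := hy
    rw [hJ, Finset.mem_filter] at hj
    obtain ⟨-, t, ht, ht1, ht2⟩ := hj
    apply hF t ht
    rw [abs_le]
    constructor <;> nlinarith
  have hdisj : Set.PairwiseDisjoint (↑J : Set ℤ)
      (fun j : ℤ => Set.Ico ((j : ℝ) * δ) (((j : ℝ) + 1) * δ)) := by
    intro i _ j _ hij
    rw [Function.onFun, Set.disjoint_left]
    rintro y ⟨h1, h2⟩ ⟨h3, h4⟩
    have h5 : (i : ℝ) < (j : ℝ) + 1 := by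
      have := lt_of_le_of_lt h1 h4
      exact lt_of_mul_lt_mul_right this hδ.le
    have h6 : (j : ℝ) < (i : ℝ) + 1 := by
      have := lt_of_le_of_lt h3 h2
      exact lt_of_mul_lt_mul_right this hδ.le
    have h7 : i < j + 1 := by exact_mod_cast h5
    have h8 : j < i + 1 := by exact_mod_cast h6
    exact hij (by omega)
  have hmeas : volume (⋃ j ∈ J, Set.Ico ((j : ℝ) * δ) (((j : ℝ) + 1) * δ)) =
      ENNReal.ofReal (J.card * δ) := by
    rw [measure_biUnion_finset hdisj (fun _ _ => measurableSet_Ico)]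
    have h1 : ∀ j ∈ J, volume (Set.Ico ((j : ℝ) * δ) (((j : ℝ) + 1) * δ)) = ENNReal.ofReal δ := by
      intro j _
      rw [Real.volume_Ico]
      congr 1
      ring
    rw [Finset.sum_congr rfl h1, Finset.sum_const, nsmul_eq_mul, ENNReal.ofReal_mul (by positivity),
      ENNReal.ofReal_natCast]
  have hcard : (J.card : ℝ) * δ ≤ V := by
    have h1 : ENNReal.ofReal (J.card * δ) ≤ ENNReal.ofReal V := by
      rw [← hmeas]
      exact (measure_mono hsub).trans hvol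
    exact (ENNReal.ofReal_le_ofReal_iff hV).1 h1
  refine ⟨J.image (fun j : ℤ => (j : ℝ) * δ), ?_, ?_⟩
  · rw [le_div_iff₀ hδ]
    refine le_trans (mul_le_mul_of_nonneg_right ?_ hδ.le) hcard
    exact_mod_cast Finset.card_image_le
  · intro t ht
    rw [Set.mem_iUnion₂]
    have h1 : ((⌊t / δ⌋ : ℤ) : ℝ) * δ ≤ t := by
      rw [← le_div_iff₀ hδ]
      exact Int.floor_le _
    have h2 : t < (((⌊t / δ⌋ : ℤ) : ℝ) + 1) * δ := by
      rw [← div_lt_iff₀ hδ]
      exact Int.lt_floor_add_one _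
    refine ⟨((⌊t / δ⌋ : ℤ) : ℝ) * δ, ?_, h1, by linarith⟩
    rw [Finset.mem_image]
    refine ⟨⌊t / δ⌋, ?_, rfl⟩
    rw [hJ, Finset.mem_filter, Finset.mem_Icc]
    obtain ⟨h3, h4⟩ := hE ht
    exact ⟨⟨Int.floor_le_floor (by gcongr), Int.floor_le_floor (by gcongr)⟩, t, ht, h1, h2⟩

end Pool.Agent.W686.MWCOV
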