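import Mathlib

set_option autoImplicit false
open Filter Topology MeasureTheory
open scoped ZeroAtInfty

namespace Pool.Agent.W686.Shift

/-- addition of a constant as a cocompact map of the line -/
noncomputable def addC (t : ℝ) : CocompactMap ℝ ℝ where
  toFun := fun r => r + t
  continuous_toFun := by fun_prop
  cocompact_tendsto' := (Homeomorph.addRight t).isClosedEmbedding.tendsto_cocompact

/-- translation operator on `C₀(ℝ, ℂ)` -/
noncomputable def T (t : ℝ) : C₀(ℝ, ℂ) →L[ℂ] C₀(ℝ, ℂ) :=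
  LinearMap.mkContinuous (ZeroAtInftyContinuousMap.compLinearMap (addC t)) 1 (by
    intro f
    rw [one_mul]
    rw [← ZeroAtInftyContinuousMap.norm_toBCF_eq_norm, ← ZeroAtInftyContinuousMap.norm_toBCF_eq_norm]
    refine (BoundedContinuousFunction.norm_le (norm_nonneg _)).2 ?_
    intro r
    exact f.toBCF.norm_coe_le_norm (r + t))

theorem T_apply (t : ℝ) (f : C₀(ℝ, ℂ)) (r : ℝ) : T t f r = f (r + t) := rfl

theorem norm_T_le (t : ℝ) : ‖T t‖ ≤ 1 := LinearMap.mkContinuous_norm_le _ zero_le_one _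

theorem norm_apply_le (f : C₀(ℝ, ℂ)) (r : ℝ) : ‖f r‖ ≤ ‖f‖ := by
  rw [← ZeroAtInftyContinuousMap.norm_toBCF_eq_norm]
  exact f.toBCF.norm_coe_le_norm r

theorem norm_le_of (f : C₀(ℝ, ℂ)) (C : ℝ) (hC : 0 ≤ C) (h : ∀ r, ‖f r‖ ≤ C) : ‖f‖ ≤ C := by
  rw [← ZeroAtInftyContinuousMap.norm_toBCF_eq_norm]
  exact (BoundedContinuousFunction.norm_le hC).2 h

theorem T_zero : T 0 = 1 := by
  ext f r
  simp [T_apply]

theorem T_add (s t : ℝ) : T (s + t) = T s * T t := by
  ext f r
  simp [T_apply, add_assoc]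

theorem T_cont (f : C₀(ℝ, ℂ)) : Continuous (fun t : ℝ => T t f) := by
  have hu := ZeroAtInftyContinuousMap.uniformContinuous f
  rw [Metric.uniformContinuous_iff] at hu
  rw [Metric.continuous_iff]
  intro t ε hε
  obtain ⟨δ, hδ, h⟩ := hu (ε / 2) (by positivity)
  refine ⟨δ, hδ, fun s hs => ?_⟩
  rw [dist_eq_norm]
  have : ‖T s f - T t f‖ ≤ ε / 2 := by
    refine norm_le_of _ _ (by positivity) (fun r => ?_)
    have h1 := @h (r + s) (r + t) (by simpa [Real.dist_eq] using hs)
    rw [dist_eq_norm] at h1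
    simpa [T_apply] using h1.le
  linarith

/-- evaluation at a point as a continuous functional -/
noncomputable def ev (r : ℝ) : C₀(ℝ, ℂ) →L[ℂ] ℂ :=
  LinearMap.mkContinuous
    { toFun := fun f => f r
      map_add' := fun _ _ => rfl
      map_smul' := fun _ _ => rfl } 1 (by
      intro f
      rw [one_mul]
      exact norm_apply_le f r)

/-- The Gaussian as an element of `C₀(ℝ, ℂ)`. -/
noncomputable def g : ℝ → ℂ := fun r => ((Real.exp (-1 * r ^ 2) : ℝ) : ℂ)

noncomputable def g' : ℝ → ℂ := fun r => ((-2 * (r * Real.exp (-1 * r ^ 2)) : ℝ) : ℂ)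

theorem g_deriv (r : ℝ) : HasDerivAt g (g' r) r := by
  have h1 : HasDerivAt (fun r : ℝ => Real.exp (-1 * r ^ 2)) (-2 * (r * Real.exp (-1 * r ^ 2))) r := by
    have := ((hasDerivAt_pow 2 r).const_mul (-1)).exp
    convert this using 1
    simp
    ring
  exact h1.ofReal_comp

theorem g_int : Integrable g := by
  have := integrable_exp_neg_mul_sq (b := 1) one_pos
  exact this.ofReal

theorem g'_int : Integrable g' := by
  have := (integrable_mul_exp_neg_mul_sq (b := 1) one_pos).const_mul (-2)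
  exact this.ofReal

theorem g_zero : g 0 = 1 := by simp [g]

theorem g_norm_le (r : ℝ) : ‖g r‖ ≤ 1 := by
  simp only [g, Complex.norm_real, Real.norm_eq_abs, Real.abs_exp]
  rw [Real.exp_le_one_iff]
  nlinarith [sq_nonneg r]

noncomputable def G : C₀(ℝ, ℂ) where
  toFun := g
  continuous_toFun := by unfold g; fun_prop
  zero_at_infty' := by
    have h := tendsto_rpow_abs_mul_exp_neg_mul_sq_cocompact (a := 1) one_pos 0
    have h2 : Tendsto (fun x : ℝ => Real.exp (-1 * x ^ 2)) (cocompact ℝ) (𝓝 0) := by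
      refine h.congr (fun x => ?_)
      rw [Real.rpow_zero, one_mul]
    have h3 := (Complex.continuous_ofReal.tendsto 0).comp h2
    rw [Complex.ofReal_zero] at h3
    exact h3

theorem G_apply (r : ℝ) : G r = g r := rfl

theorem orbit_norm_ge (t : ℝ) : 1 ≤ ‖T t G‖ := by
  have h := norm_apply_le (T t G) (-t)
  rw [T_apply, G_apply] at h
  simpa [g_zero] using h

theorem exp_norm (a s t : ℝ) :
    ‖Complex.exp (-(((a : ℂ) + (s : ℂ) * Complex.I) * (t : ℂ)))‖ = Real.exp (-(a * t)) := by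
  rw [Complex.norm_exp]
  simp

theorem exp_norm_le (a s t : ℝ) (ha : 0 < a) (ht : 0 ≤ t) :
    ‖Complex.exp (-(((a : ℂ) + (s : ℂ) * Complex.I) * (t : ℂ)))‖ ≤ 1 := by
  rw [exp_norm, Real.exp_le_one_iff]
  nlinarith [mul_nonneg ha.le ht]

theorem cont_exp (a s : ℝ) :
    Continuous (fun t : ℝ => Complex.exp (-(((a : ℂ) + (s : ℂ) * Complex.I) * (t : ℂ)))) := by
  fun_prop

theorem int_mul (a s r : ℝ) (ha : 0 < a) (h : ℝ → ℂ) (hi : Integrable h) :
    IntegrableOn (fun t : ℝ => Complex.exp (-(((a : ℂ) + (s : ℂ) * Complex.I) * (t : ℂ))) * h (r + t))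
      (Set.Ioi 0) := by
  have h1 : Integrable (fun t : ℝ => h (r + t)) := hi.comp_add_left r
  refine Integrable.mono' h1.norm.integrableOn ?_ ?_
  · exact ((cont_exp a s).aestronglyMeasurable.mul h1.aestronglyMeasurable).restrict
  · refine (ae_restrict_iff' measurableSet_Ioi).2 (Filter.Eventually.of_forall fun t ht => ?_)
    rw [norm_mul]
    have := exp_norm_le a s t ha (le_of_lt ht)
    nlinarith [norm_nonneg (h (r + t))]

theorem norm_int_mul_le (a s r : ℝ) (ha : 0 < a) (h : ℝ → ℂ) (hi : Integrable h) :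
    ‖∫ t in Set.Ioi (0 : ℝ), Complex.exp (-(((a : ℂ) + (s : ℂ) * Complex.I) * (t : ℂ))) * h (r + t)‖
      ≤ ∫ t, ‖h t‖ := by
  have h1 : Integrable (fun t : ℝ => h (r + t)) := hi.comp_add_left r
  calc _ ≤ ∫ t in Set.Ioi (0 : ℝ), ‖h (r + t)‖ := by
        refine norm_integral_le_of_norm_le h1.norm.integrableOn ?_
        refine (ae_restrict_iff' measurableSet_Ioi).2 (Filter.Eventually.of_forall fun t ht => ?_)
        rw [norm_mul]
        have := exp_norm_le a s t ha (le_of_lt ht)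
        nlinarith [norm_nonneg (h (r + t))]
    _ ≤ ∫ t, ‖h (r + t)‖ := setIntegral_le_integral h1.norm (Filter.Eventually.of_forall fun _ => norm_nonneg _)
    _ = ∫ t, ‖h t‖ := integral_add_left_eq_self (fun t => ‖h t‖) r

theorem by_parts (a s r : ℝ) (ha : 0 < a) :
    ((a : ℂ) + (s : ℂ) * Complex.I) *
      (∫ t in Set.Ioi (0 : ℝ), Complex.exp (-(((a : ℂ) + (s : ℂ) * Complex.I) * (t : ℂ))) * g (r + t))
      = g r + ∫ t in Set.Ioi (0 : ℝ), Complex.exp (-(((a : ℂ) + (s : ℂ) * Complex.I) * (t : ℂ))) * g' (r + t) := by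
  set lam : ℂ := (a : ℂ) + (s : ℂ) * Complex.I with hlam
  have i1 := int_mul a s r ha g g_int
  have i2 := int_mul a s r ha g' g'_int
  have hd : ∀ t ∈ Set.Ici (0 : ℝ), HasDerivAt (fun t : ℝ => Complex.exp (-(lam * (t : ℂ))) * g (r + t))
      (-lam * (Complex.exp (-(lam * (t : ℂ))) * g (r + t)) + Complex.exp (-(lam * (t : ℂ))) * g' (r + t)) t := by
    intro t _
    have e1 : HasDerivAt (fun t : ℝ => Complex.exp (-(lam * (t : ℂ)))) (-lam * Complex.exp (-(lam * (t : ℂ)))) t := by
      have : HasDerivAt (fun t : ℝ => -(lam * (t : ℂ))) (-lam) t := by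
        have := ((hasDerivAt_id t).ofReal_comp.const_mul lam).neg
        rw [Complex.ofReal_one, mul_one] at this
        exact this
      have := this.cexp
      convert this using 1
      ring
    have e2 : HasDerivAt (fun t : ℝ => g (r + t)) (g' (r + t)) t := by
      have := (g_deriv (r + t)).scomp t ((hasDerivAt_id t).const_add r)
      simpa [Function.comp_def] using this
    have := e1.mul e2
    rw [mul_assoc] at this
    exact this
  have hlim : Tendsto (fun t : ℝ => Complex.exp (-(lam * (t : ℂ))) * g (r + t)) atTop (𝓝 0) := by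
    refine squeeze_zero_norm' (a := fun t => Real.exp (-(a * t))) ?_ ?_
    · refine Filter.Eventually.of_forall fun t => ?_
      rw [norm_mul, hlam, exp_norm]
      have := g_norm_le (r + t)
      nlinarith [Real.exp_pos (-(a * t))]
    · refine Real.tendsto_exp_atBot.comp ?_
      exact tendsto_neg_atTop_atBot.comp (tendsto_id.const_mul_atTop ha)
  have hI := integral_Ioi_of_hasDerivAt_of_tendsto' hd ((i1.const_mul (-lam)).add i2) hlim
  rw [integral_add (i1.const_mul (-lam)) i2, integral_const_mul] at hI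
  simp only [Complex.ofReal_zero, mul_zero, neg_zero, Complex.exp_zero, one_mul, add_zero, zero_sub] at hI
  linear_combination -hI

/-- the uniform resolvent bound -/
theorem resolvent_bound : ∃ K : ℝ, 0 ≤ K ∧ ∀ a s : ℝ, 0 < a →
    ‖∫ t in Set.Ioi (0 : ℝ), Complex.exp (-(((a : ℂ) + (s : ℂ) * Complex.I) * (t : ℂ))) • T t G‖ ^ 2
      ≤ K * (1 + s ^ 2)⁻¹ := by
  set C1 : ℝ := ∫ t, ‖g t‖ with hC1
  set C2 : ℝ := ∫ t, ‖g' t‖ with hC2
  have hC1n : 0 ≤ C1 := integral_nonneg fun _ => norm_nonneg _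
  have hC2n : 0 ≤ C2 := integral_nonneg fun _ => norm_nonneg _
  refine ⟨C1 ^ 2 + (1 + C2) ^ 2, by positivity, fun a s ha => ?_⟩
  set I := ∫ t in Set.Ioi (0 : ℝ), Complex.exp (-(((a : ℂ) + (s : ℂ) * Complex.I) * (t : ℂ))) • T t G with hI
  have key : ‖I‖ ≤ C1 ∧ |s| * ‖I‖ ≤ 1 + C2 := by
    by_cases hint : IntegrableOn (fun t : ℝ =>
        Complex.exp (-(((a : ℂ) + (s : ℂ) * Complex.I) * (t : ℂ))) • T t G) (Set.Ioi 0)
    · have hev : ∀ r : ℝ, I r =
          ∫ t in Set.Ioi (0 : ℝ), Complex.exp (-(((a : ℂ) + (s : ℂ) * Complex.I) * (t : ℂ))) * g (r + t) := by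
        intro r
        have := (ev r).integral_comp_comm hint
        exact this.symm
      have hA : ‖I‖ ≤ C1 := by
        refine norm_le_of _ _ hC1n fun r => ?_
        rw [hev r]
        exact norm_int_mul_le a s r ha g g_int
      refine ⟨hA, ?_⟩
      have hB : ‖(s : ℂ) • I‖ ≤ 1 + C2 := by
        refine norm_le_of _ _ (by positivity) fun r => ?_
        rw [ZeroAtInftyContinuousMap.smul_apply, hev r]
        have h1 := by_parts a s r ha
        have h2 : ‖(s : ℂ) • ∫ t in Set.Ioi (0 : ℝ), Complex.exp (-(((a : ℂ) + (s : ℂ) * Complex.I) * (t : ℂ))) * g (r + t)‖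
          ≤ ‖((a : ℂ) + (s : ℂ) * Complex.I) * ∫ t in Set.Ioi (0 : ℝ), Complex.exp (-(((a : ℂ) + (s : ℂ) * Complex.I) * (t : ℂ))) * g (r + t)‖ := by
          rw [norm_smul, norm_mul]
          refine mul_le_mul_of_nonneg_right ?_ (norm_nonneg _)
          have := Complex.abs_im_le_norm ((a : ℂ) + (s : ℂ) * Complex.I)
          simpa using this
        refine h2.trans ?_
        rw [h1]
        refine (norm_add_le _ _).trans (add_le_add (g_norm_le r) ?_)
        exact norm_int_mul_le a s r ha g' g'_int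
      rw [norm_smul, Complex.norm_real, Real.norm_eq_abs] at hB
      exact hB
    · have : I = 0 := integral_undef hint
      rw [this, norm_zero]
      simp only [mul_zero]
      exact ⟨hC1n, by positivity⟩
  obtain ⟨hA, hB⟩ := key
  have hpos : (0 : ℝ) < 1 + s ^ 2 := by positivity
  rw [← div_eq_mul_inv, le_div_iff₀ hpos]
  have h1 : ‖I‖ ^ 2 ≤ C1 ^ 2 := pow_le_pow_left₀ (norm_nonneg _) hA 2
  have h2 : (|s| * ‖I‖) ^ 2 ≤ (1 + C2) ^ 2 := pow_le_pow_left₀ (by positivity) hB 2
  rw [mul_pow, sq_abs] at h2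
  linarith

end Pool.Agent.W686.Shift
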