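import Pool.Agent.W217.BE.Stm

/-! Part BE-HT: heights of annihilators of multigraded modules. -/

set_option autoImplicit false

namespace Pool.Agent.W686.BEHT

open Pool.Agent.W217.BE

section

variable {A : Type} [CommRing A] {k : ℕ}

theorem ker_eq : RingHom.ker (MvPolynomial.constantCoeff : MvPolynomial (Fin k) A →+* A) =
    Ideal.span ((MvPolynomial.X : Fin k → MvPolynomial (Fin k) A) '' Set.univ) := by
  ext f
  rw [MvPolynomial.mem_ideal_span_X_image, RingHom.mem_ker]
  constructor
  · intro h m hm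
    by_contra hcon
    push Not at hcon
    have hm0 : m = 0 := by
      ext i
      exact hcon i (Set.mem_univ i)
    rw [hm0, MvPolynomial.mem_support_iff] at hm
    exact hm h
  · intro h
    by_contra hcon
    have h0 : (0 : Fin k →₀ ℕ) ∈ f.support := by
      rw [MvPolynomial.mem_support_iff]
      exact hcon
    obtain ⟨i, -, hi⟩ := h 0 h0
    exact hi rfl

theorem surj : Function.Surjective
    (MvPolynomial.constantCoeff : MvPolynomial (Fin k) A →+* A) := fun a =>
  ⟨MvPolynomial.C a, by simp⟩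

theorem height_comap_le [IsNoetherianRing A] (q : Ideal A) [hq : q.IsPrime] :
    (q.comap (MvPolynomial.constantCoeff : MvPolynomial (Fin k) A →+* A)).height ≤
      q.height + (k : ℕ∞) := by
  obtain ⟨Q, hQ⟩ : ∃ Q, Q = q.comap (MvPolynomial.constantCoeff : MvPolynomial (Fin k) A →+* A) :=
    ⟨_, rfl⟩
  have hQp : Q.IsPrime := by rw [hQ]; exact Ideal.comap_isPrime _ _
  obtain ⟨s, hs⟩ : ∃ s : Set (MvPolynomial (Fin k) A),
    s = (MvPolynomial.X : Fin k → MvPolynomial (Fin k) A) '' Set.univ := ⟨_, rfl⟩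
  have hsQ : s ⊆ Q := by
    rw [hs, hQ]
    rintro _ ⟨i, -, rfl⟩
    show MvPolynomial.constantCoeff (MvPolynomial.X i : MvPolynomial (Fin k) A) ∈ q
    simp
  have h1 := Ideal.height_le_height_add_encard_of_subset s hsQ
  have hcard : s.encard ≤ (k : ℕ∞) := by
    rw [hs]
    refine (Set.encard_image_le _ _).trans ?_
    rw [Set.encard_univ]
    simp
  obtain ⟨e, he⟩ : ∃ e : (MvPolynomial (Fin k) A ⧸ Ideal.span s) ≃+* A,
      ∀ f, e (Ideal.Quotient.mk _ f) = MvPolynomial.constantCoeff f := by
    have h2 : Ideal.span s =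
        RingHom.ker (MvPolynomial.constantCoeff : MvPolynomial (Fin k) A →+* A) := by
      rw [hs, ker_eq]
    refine ⟨(Ideal.quotEquivOfEq h2).trans (RingHom.quotientKerEquivOfSurjective surj), ?_⟩
    intro f
    rfl
  have h3 : (Q.map (Ideal.Quotient.mk (Ideal.span s))).map e = q := by
    have h4 : (e : (MvPolynomial (Fin k) A ⧸ Ideal.span s) →+* A).comp
        (Ideal.Quotient.mk (Ideal.span s)) = MvPolynomial.constantCoeff := by
      ext f
      · simp [he]
      · simp [he]
    have h5 : (Q.map (Ideal.Quotient.mk (Ideal.span s))).map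
        (e : (MvPolynomial (Fin k) A ⧸ Ideal.span s) →+* A) = q := by
      rw [Ideal.map_map, h4, hQ, Ideal.map_comap_of_surjective _ surj]
    exact h5
  have h6 : (Q.map (Ideal.Quotient.mk (Ideal.span s))).height = q.height := by
    rw [← h3, RingEquiv.height_map]
  rw [← hQ]
  rw [h6] at h1
  exact h1.trans (add_le_add le_rfl hcard)

theorem monomial_mem {M : Type} [AddCommGroup M] [Module A M]
    [Module (MvPolynomial (Fin k) A) M]
    (ℳ : (Fin k → ℤ) → Submodule A M)
    (hX : ∀ j a x, x ∈ ℳ a →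
      (MvPolynomial.X j : MvPolynomial (Fin k) A) • x ∈ ℳ (a + Pi.single j 1))
    (α : Fin k →₀ ℕ) : ∀ (a : Fin k → ℤ) (x : M), x ∈ ℳ a →
      (MvPolynomial.monomial α (1 : A)) • x ∈ ℳ (a + fun i => (α i : ℤ)) := by
  classical
  have hpow : ∀ (j : Fin k) (n : ℕ) (a : Fin k → ℤ) (x : M), x ∈ ℳ a →
      ((MvPolynomial.X j : MvPolynomial (Fin k) A) ^ n) • x ∈ ℳ (a + (n : ℤ) • Pi.single j 1) := by
    intro j n
    induction n with
    | zero => intro a x hx; simpa using hx
    | succ n ih =>
      intro a x hx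
      have h1 := hX j _ _ (ih a x hx)
      rw [smul_smul, ← pow_succ'] at h1
      have h2 : a + (n : ℤ) • Pi.single j (1 : ℤ) + Pi.single j 1 =
          a + ((n + 1 : ℕ) : ℤ) • Pi.single j (1 : ℤ) := by
        push_cast
        rw [add_smul, one_smul, add_assoc]
      rw [h2] at h1
      exact h1
  induction α using Finsupp.induction with
  | zero =>
    intro a x hx
    have h1 : (a + fun i => (((0 : Fin k →₀ ℕ) i : ℕ) : ℤ)) = a := by
      funext i
      simp
    rw [h1, MvPolynomial.monomial_zero', MvPolynomial.C_1, one_smul]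
    exact hx
  | single_add j n α _ _ ih =>
    intro a x hx
    have h1 := hpow j n _ _ (ih a x hx)
    rw [smul_smul] at h1
    have h2 : (MvPolynomial.X j : MvPolynomial (Fin k) A) ^ n * MvPolynomial.monomial α (1 : A) =
        MvPolynomial.monomial (Finsupp.single j n + α) (1 : A) := by
      rw [MvPolynomial.X_pow_eq_monomial, MvPolynomial.monomial_mul, one_mul]
    rw [h2] at h1
    convert h1 using 2
    funext i
    simp only [Pi.add_apply, Finsupp.add_apply, Pi.smul_apply, smul_eq_mul]
    by_cases hij : i = j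
    · subst hij
      simp
      ring
    · rw [Finsupp.single_eq_of_ne hij, Pi.single_eq_of_ne hij]
      simp

theorem ann_le {M : Type} [AddCommGroup M] [Module A M]
    [Module (MvPolynomial (Fin k) A) M] [IsScalarTower A (MvPolynomial (Fin k) A) M]
    (ℳ : (Fin k → ℤ) → Submodule A M) (hint : DirectSum.IsInternal ℳ)
    (hX : ∀ j a x, x ∈ ℳ a →
      (MvPolynomial.X j : MvPolynomial (Fin k) A) • x ∈ ℳ (a + Pi.single j 1))
    (f : MvPolynomial (Fin k) A) (hf : ∀ x : M, f • x = 0) (x : M) :
    MvPolynomial.constantCoeff f • x = 0 := by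
  classical
  have htop := hint.submodule_iSup_eq_top
  have hx : x ∈ ⨆ i, ℳ i := by rw [htop]; exact Submodule.mem_top
  refine Submodule.iSup_induction ℳ (motive := fun x => MvPolynomial.constantCoeff f • x = 0) hx
    ?_ (smul_zero _) (fun y z hy hz => by rw [smul_add, hy, hz, add_zero])
  intro a x hxa
  obtain ⟨s, hs⟩ : ∃ s : Finset (Fin k →₀ ℕ), s = insert 0 f.support := ⟨_, rfl⟩
  have hmem : ∀ α : Fin k →₀ ℕ, MvPolynomial.coeff α f • (MvPolynomial.monomial α (1 : A) • x) ∈
      ℳ (a + fun i => (α i : ℤ)) := fun α =>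
    Submodule.smul_mem _ _ (monomial_mem ℳ hX α a x hxa)
  obtain ⟨z, hz⟩ : ∃ z : DirectSum (Fin k → ℤ) (fun i => ℳ i),
    z = ∑ α ∈ s, DirectSum.of (fun i => ℳ i) (a + fun i => (α i : ℤ)) ⟨_, hmem α⟩ := ⟨_, rfl⟩
  have hsum : f • x = ∑ α ∈ s, MvPolynomial.coeff α f • (MvPolynomial.monomial α (1 : A) • x) := by
    have h1 : f = ∑ α ∈ s, MvPolynomial.monomial α (MvPolynomial.coeff α f) := by
      conv_lhs => rw [← MvPolynomial.support_sum_monomial_coeff f]
      refine Finset.sum_subset (by rw [hs]; exact Finset.subset_insert _ _) ?_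
      intro α _ hα
      rw [MvPolynomial.notMem_support_iff.1 hα, MvPolynomial.monomial_zero]
    conv_lhs => rw [h1]
    rw [Finset.sum_smul]
    refine Finset.sum_congr rfl fun α _ => ?_
    rw [← smul_assoc, MvPolynomial.smul_monomial, smul_eq_mul, mul_one]
  have hz0 : z = 0 := by
    apply hint.injective
    rw [map_zero, hz, map_sum]
    rw [hf x] at hsum
    rw [hsum]
    refine Finset.sum_congr rfl fun α _ => ?_
    rw [DirectSum.coeAddMonoidHom_of]
  have h0s : (0 : Fin k →₀ ℕ) ∈ s := by rw [hs]; exact Finset.mem_insert_self _ _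
  have hza : (z a : M) = MvPolynomial.coeff 0 f • x := by
    rw [hz]
    rw [DFinsupp.finsetSum_apply, Finset.sum_eq_single_of_mem 0 h0s]
    · have h1 : (a + fun i => (((0 : Fin k →₀ ℕ) i : ℕ) : ℤ)) = a := by
        funext i
        simp
      have h2 : ∀ (b : Fin k → ℤ) (hb : b = a) (y : M) (hy : y ∈ ℳ b),
          (((DirectSum.of (fun i => ℳ i) b ⟨y, hy⟩) a : ℳ a) : M) = y := by
        intro b hb y hy
        subst hb
        rw [DirectSum.of_eq_same]
      rw [h2 _ h1]
      rw [MvPolynomial.monomial_zero', MvPolynomial.C_1, one_smul]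
    · intro α _ hα
      apply DirectSum.of_eq_of_ne
      intro h
      apply hα
      ext i
      have := congrFun h i
      simp only [Pi.add_apply] at this
      have h3 : ((α i : ℕ) : ℤ) = 0 := by linarith
      exact_mod_cast h3
  rw [hz0] at hza
  rw [MvPolynomial.constantCoeff_eq]
  rw [← hza]
  rfl

end

theorem main : HT := by
  intro A _ _ k M _ _ _ _ ℳ hint hX q hq hann
  refine le_trans (Ideal.height_mono ?_) (height_comap_le q)
  intro f hf
  rw [Ideal.mem_comap]
  apply hann
  rw [Module.mem_annihilator] at hf ⊢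
  exact fun x => ann_le ℳ hint hX f hf x

end Pool.Agent.W686.BEHT
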